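import Mathlib
import Pool.Agent.W262.RK.Stm
import Pool.Agent.H373R2.T7.Fund
import Pool.Agent.Helper256.KM.Mertens

/-!
# RK-SV: upper bound sieve for linear forms with prescribed small prime factors
-/

namespace Pool.Agent.W21.RK

open Finset Pool.Agent.W262.RK

lemma mem_PS {z y p : ℕ} : p ∈ PS z y ↔ (z < p ∧ p ≤ y) ∧ p.Prime := by
  unfold PS
  rw [mem_filter, mem_Ioc]

lemma PP_ne_zero (z y : ℕ) : PP z y ≠ 0 :=
  prod_ne_zero_iff.2 fun _ hp => (mem_PS.1 hp).2.ne_zero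

lemma prime_dvd_PP {z y p : ℕ} (hp : p.Prime) (h : p ∣ PP z y) : p ∈ PS z y := by
  unfold PP at h
  obtain ⟨q, hq, hpq⟩ := (Prime.dvd_finsetProd_iff hp.prime _).1 h
  have h2 := (Nat.prime_dvd_prime_iff_eq hp (mem_PS.1 hq).2).1 hpq
  rwa [h2]

lemma dvd_PP {z y p : ℕ} (h : p ∈ PS z y) : p ∣ PP z y := dvd_prod_of_mem _ h

lemma PP_squarefree (z y : ℕ) : Squarefree (PP z y) := by
  unfold PP
  refine Finset.squarefree_prod_of_pairwise_isCoprime (fun p hp q hq hpq => ?_)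
    fun p hp => (mem_PS.1 hp).2.squarefree
  have h1 : p.Prime := (mem_PS.1 (Finset.mem_coe.1 hp)).2
  have h2 : q.Prime := (mem_PS.1 (Finset.mem_coe.1 hq)).2
  simp only [Function.onFun, ← Nat.coprime_iff_isRelPrime]
  exact (Nat.coprime_primes h1 h2).mpr hpq

lemma prod_le (c z : ℕ) (hz : 2 * c + 2 ≤ z) : ∃ C : ℝ, 0 < C ∧ ∀ y : ℕ, 3 ≤ y → z < y →
    ∏ p ∈ PS z y, (1 - (c : ℝ) / p) ≤ C / (Real.log y) ^ c := by
  obtain ⟨C0, hC0⟩ := Pool.Agent.Helper256.KM.mertens_inv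
  set S0 : ℝ := ∑ p ∈ (Finset.Icc 1 z).filter Nat.Prime, (1 : ℝ) / p with hS0
  refine ⟨Real.exp (c * (C0 + S0)), Real.exp_pos _, fun y hy hzy => ?_⟩
  have hm := (abs_le.1 (hC0 y hy)).1
  have hyr : (3 : ℝ) ≤ y := by exact_mod_cast hy
  have hl1 : 1 < Real.log y := by
    rw [Real.lt_log_iff_exp_lt (by linarith)]
    have := Real.exp_one_lt_d9
    linarith
  have hsplit : ∑ p ∈ (Finset.Icc 1 y).filter Nat.Prime, (1 : ℝ) / p = S0 + ∑ p ∈ PS z y, (1 : ℝ) / p := by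
    rw [hS0, ← sum_union]
    · congr 1
      ext p
      rw [mem_union, mem_filter, mem_filter, mem_Icc, mem_Icc, mem_PS]
      constructor
      · rintro ⟨⟨h1, h2⟩, h3⟩
        rcases Nat.lt_or_ge z p with h | h
        · exact Or.inr ⟨⟨h, h2⟩, h3⟩
        · exact Or.inl ⟨⟨h1, h⟩, h3⟩
      · rintro (⟨⟨h1, h2⟩, h3⟩ | ⟨⟨h1, h2⟩, h3⟩)
        · exact ⟨⟨h1, by omega⟩, h3⟩
        · exact ⟨⟨by omega, h2⟩, h3⟩
    · rw [disjoint_left]
      intro p hp hp'
      rw [mem_filter, mem_Icc] at hp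
      rw [mem_PS] at hp'
      omega
  have h1 : ∏ p ∈ PS z y, (1 - (c : ℝ) / p) ≤ ∏ p ∈ PS z y, Real.exp (-((c : ℝ) / p)) := by
    apply prod_le_prod
    · intro p hp
      have hp' := (mem_PS.1 hp).1.1
      have hp0 : (0 : ℝ) < p := by exact_mod_cast (mem_PS.1 hp).2.pos
      have hcp : (c : ℝ) ≤ p := by exact_mod_cast (by omega : c ≤ p)
      rw [sub_nonneg, div_le_one hp0]
      exact hcp
    · intro p _
      have := Real.add_one_le_exp (-((c : ℝ) / p))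
      linarith
  refine h1.trans ?_
  rw [← Real.exp_sum, sum_neg_distrib]
  have h2 : ∑ p ∈ PS z y, (c : ℝ) / p = c * ∑ p ∈ PS z y, (1 : ℝ) / p := by
    rw [mul_sum]
    refine sum_congr rfl fun p _ => ?_
    ring
  rw [h2]
  have h3 : Real.log (Real.log y) - C0 - S0 ≤ ∑ p ∈ PS z y, (1 : ℝ) / p := by linarith
  have h4 : Real.log y ^ c = Real.exp (c * Real.log (Real.log y)) := by
    rw [← Real.log_pow, Real.exp_log (by positivity)]
  rw [h4, ← Real.exp_sub]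
  apply Real.exp_le_exp.2
  have hc : (0 : ℝ) ≤ c := Nat.cast_nonneg _
  nlinarith

/-- one linear form has exactly one root modulo `p`, different forms have different roots -/
lemma nu_eq {J : Type} [Fintype J] [DecidableEq J] (α β : J → ℤ) (p : ℕ) (hp : p.Prime)
    (r m : ℤ) (hm : ¬ (p : ℤ) ∣ m) (hα : ∀ j, ¬ (p : ℤ) ∣ α j)
    (hd : ∀ j l, j ≠ l → ¬ (p : ℤ) ∣ α j * β l - α l * β j) (Q : ℕ → ℕ → Prop)
    (hQ : ∀ n, Q p n ↔ ∃ j, (p : ℤ) ∣ α j * (r + m * ((n : ℤ) - 1)) + β j) :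
    Pool.Agent.H373R2.T7.nuB Q p = Fintype.card J := by
  classical
  have : Fact p.Prime := ⟨hp⟩
  have hm' : (m : ZMod p) ≠ 0 := fun h => hm ((ZMod.intCast_zmod_eq_zero_iff_dvd _ _).1 h)
  have hα' : ∀ j, (α j : ZMod p) ≠ 0 := fun j h => hα j ((ZMod.intCast_zmod_eq_zero_iff_dvd _ _).1 h)
  set ρ : J → ZMod p := fun j => 1 - (β j + α j * r) / (α j * m) with hρ
  have hroot : ∀ j (n : ℕ), (p : ℤ) ∣ α j * (r + m * ((n : ℤ) - 1)) + β j ↔ (n : ZMod p) = ρ j := by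
    intro j n
    rw [← ZMod.intCast_zmod_eq_zero_iff_dvd]
    push_cast
    have h1 := hα' j
    constructor
    · intro h
      rw [hρ]
      field_simp
      linear_combination h
    · intro h
      rw [h, hρ]
      field_simp
      ring
  have hinj : Function.Injective ρ := by
    intro j l hjl
    by_contra hne
    apply hd j l hne
    rw [← ZMod.intCast_zmod_eq_zero_iff_dvd]
    push_cast
    have h1 := hα' j
    have h2 := hα' l
    rw [hρ] at hjl
    simp only at hjl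
    field_simp at hjl
    linear_combination hjl
  unfold Pool.Agent.H373R2.T7.nuB
  have himg : ((range p).filter (fun r' => Q p r')).image (fun n : ℕ => (n : ZMod p)) = univ.image ρ := by
    ext x
    rw [mem_image, mem_image]
    constructor
    · rintro ⟨n, hn, rfl⟩
      rw [mem_filter, hQ] at hn
      obtain ⟨_, j, hj⟩ := hn
      exact ⟨j, mem_univ _, ((hroot j n).1 hj).symm⟩
    · rintro ⟨j, _, rfl⟩
      refine ⟨(ρ j).val, ?_, ?_⟩
      · rw [mem_filter, hQ, mem_range]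
        refine ⟨ZMod.val_lt _, j, (hroot j _).2 ?_⟩
        rw [ZMod.natCast_val, ZMod.cast_id]
      · rw [ZMod.natCast_val, ZMod.cast_id]
  have hc1 : (((range p).filter (fun r' => Q p r')).image (fun n : ℕ => (n : ZMod p))).card =
      ((range p).filter (fun r' => Q p r')).card := by
    apply card_image_of_injOn
    intro a ha b hb hab
    have ha' := mem_range.1 (mem_filter.1 (Finset.mem_coe.1 ha)).1
    have hb' := mem_range.1 (mem_filter.1 (Finset.mem_coe.1 hb)).1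
    have := (ZMod.natCast_eq_natCast_iff' a b p).1 hab
    rwa [Nat.mod_eq_of_lt ha', Nat.mod_eq_of_lt hb'] at this
  rw [← hc1, himg, card_image_of_injective _ hinj, card_univ]

lemma mem_Tup {ι : Type} [Fintype ι] [DecidableEq ι] {z y : ℕ} {d : ι → ℕ} :
    d ∈ Tup ι z y ↔ (∀ i, d i ∣ PP z y) ∧ ∀ i j, i ≠ j → (d i).Coprime (d j) := by
  unfold Tup
  rw [mem_filter, Fintype.mem_piFinset]
  simp only [Nat.mem_divisors]
  constructor
  · rintro ⟨h1, h2⟩
    exact ⟨fun i => (h1 i).1, h2⟩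
  · rintro ⟨h1, h2⟩
    exact ⟨fun i => ⟨h1 i, PP_ne_zero z y⟩, h2⟩

/-- the sieving condition -/
def QQ {J : Type} (α β : J → ℤ) (z y : ℕ) (r : ℤ) (m : ℕ) (p n : ℕ) : Prop :=
  p ∈ PS z y ∧ ¬ p ∣ m ∧ ∃ j, (p : ℤ) ∣ α j * (r + m * ((n : ℤ) - 1)) + β j

open Classical in
lemma count_le {J : Type} [Fintype J] [DecidableEq J] (α β : J → ℤ) (z y X : ℕ) (s : J → ℕ)
    (hs : s ∈ Tup J z y) (hpα : ∀ p ∈ PS z y, ∀ j, ¬ (p : ℤ) ∣ α j) :
    ∃ r : ℤ, ((Icc 1 X).filter (fun t : ℕ => ∀ j, Int.gcd (α j * t + β j) (PP z y) = s j)).card ≤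
      ((Icc 1 (X / (∏ j, s j) + 1)).filter
        (fun n : ℕ => ∀ p ∈ Pool.Agent.H373R2.T7.pz y, ¬ QQ α β z y r (∏ j, s j) p n)).card := by
  obtain ⟨hs1, hs2⟩ := mem_Tup.1 hs
  set S := (Icc 1 X).filter (fun t : ℕ => ∀ j, Int.gcd (α j * t + β j) (PP z y) = s j) with hS
  rcases S.eq_empty_or_nonempty with h0 | ⟨t0, ht0⟩
  · exact ⟨0, by rw [h0, card_empty]; exact Nat.zero_le _⟩
  set m := ∏ j, s j with hm
  have hmpos : 0 < m := Nat.pos_of_ne_zero (prod_ne_zero_iff.2 fun j _ =>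
    ne_zero_of_dvd_ne_zero (PP_ne_zero z y) (hs1 j))
  have hcop : ∀ j, IsCoprime ((s j : ℕ) : ℤ) (α j) := by
    intro j
    rw [Int.isCoprime_iff_gcd_eq_one]
    by_contra hne
    obtain ⟨p, hp, hpd⟩ := Nat.exists_prime_and_dvd hne
    have h1 : (p : ℤ) ∣ ((s j : ℕ) : ℤ) := (Int.natCast_dvd_natCast.2 hpd).trans (Int.gcd_dvd_left _ _)
    have h2 : (p : ℤ) ∣ α j := (Int.natCast_dvd_natCast.2 hpd).trans (Int.gcd_dvd_right _ _)
    exact hpα p (prime_dvd_PP hp ((Int.natCast_dvd_natCast.1 h1).trans (hs1 j))) j h2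
  have hSd : ∀ t ∈ S, ∀ j, ((s j : ℕ) : ℤ) ∣ α j * t + β j := by
    intro t ht j
    have h := (mem_filter.1 ht).2 j
    rw [← h]
    exact Int.gcd_dvd_left _ _
  have hmod : ∀ t ∈ S, (m : ℤ) ∣ (t : ℤ) - t0 := by
    intro t ht
    rw [hm]
    push_cast
    apply Finset.prod_dvd_of_coprime
    · intro i _ j _ hij
      exact Nat.isCoprime_iff_coprime.2 (hs2 i j hij)
    · intro j _
      have h1 : ((s j : ℕ) : ℤ) ∣ α j * ((t : ℤ) - t0) := by
        have := dvd_sub (hSd t ht j) (hSd t0 ht0 j)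
        have e : α j * (t : ℤ) + β j - (α j * t0 + β j) = α j * ((t : ℤ) - t0) := by ring
        rwa [e] at this
      exact (hcop j).dvd_of_dvd_mul_left h1
  have hmod' : ∀ t ∈ S, t % m = t0 % m := by
    intro t ht
    have h1 := hmod t ht
    have h2 : ((t0 : ℕ) : ℤ) ≡ ((t : ℕ) : ℤ) [ZMOD (m : ℕ)] := (Int.modEq_iff_dvd).2 h1
    exact ((Int.natCast_modEq_iff).1 h2).symm
  refine ⟨((t0 % m : ℕ) : ℤ), ?_⟩
  apply card_le_card_of_injOn (fun t => t / m + 1)
  · intro t ht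
    have ht' := Finset.mem_coe.1 ht
    have htX := mem_Icc.1 (mem_filter.1 ht').1
    rw [Finset.mem_coe, mem_filter, mem_Icc]
    refine ⟨⟨Nat.le_add_left 1 _, Nat.succ_le_succ (Nat.div_le_div_right htX.2)⟩, fun p _ hQ => ?_⟩
    obtain ⟨hpPS, hpm, j, hj⟩ := hQ
    have e : ((t0 % m : ℕ) : ℤ) + (m : ℤ) * (((t / m + 1 : ℕ) : ℤ) - 1) = (t : ℤ) := by
      rw [← hmod' t ht']
      have := Nat.mod_add_div t m
      push_cast
      zify at this
      linarith
    rw [e] at hj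
    have h1 : (p : ℤ) ∣ ((PP z y : ℕ) : ℤ) := Int.natCast_dvd_natCast.2 (dvd_PP hpPS)
    have h2 : p ∣ Int.gcd (α j * t + β j) (PP z y) := Int.natCast_dvd_natCast.1 (Int.dvd_coe_gcd hj h1)
    rw [(mem_filter.1 ht').2 j] at h2
    exact hpm (h2.trans (dvd_prod_of_mem s (mem_univ j)))
  · intro a ha b hb hab
    have ha' := hmod' a (Finset.mem_coe.1 ha)
    have hb' := hmod' b (Finset.mem_coe.1 hb)
    simp only at hab
    have h1 : a / m = b / m := by omega
    rw [← Nat.mod_add_div a m, ← Nat.mod_add_div b m, ha', hb', h1]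

lemma QQ_per {J : Type} (α β : J → ℤ) (z y : ℕ) (r : ℤ) (m : ℕ) (p n : ℕ) :
    QQ α β z y r m p n ↔ QQ α β z y r m p (n % p) := by
  unfold QQ
  refine and_congr_right fun _ => and_congr_right fun _ => exists_congr fun j => ?_
  have h : (n : ℤ) = ((n % p : ℕ) : ℤ) + (p : ℤ) * ((n / p : ℕ) : ℤ) := by
    exact_mod_cast (Nat.mod_add_div n p).symm
  have e : α j * (r + (m : ℤ) * ((n : ℤ) - 1)) + β j =
      (α j * (r + (m : ℤ) * (((n % p : ℕ) : ℤ) - 1)) + β j) + (p : ℤ) * (α j * m * ((n / p : ℕ) : ℤ)) := by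
    linear_combination (α j * (m : ℤ)) * h
  rw [e]
  exact (Int.dvd_add_left (Dvd.intro _ rfl))

lemma gw_prod {J : Type} [Fintype J] [DecidableEq J] (c : ℕ) (s : J → ℕ) (h0 : ∀ j, s j ≠ 0)
    (hc : ∀ i j, i ≠ j → (s i).Coprime (s j)) :
    ∏ j, gw 1 c (s j) = ∏ p ∈ (∏ j, s j).primeFactors, (1 : ℝ) / ((p : ℝ) - c) := by
  have h1 : (∏ j, s j).primeFactors = univ.biUnion (fun j => (s j).primeFactors) := by
    ext p
    rw [mem_biUnion, Nat.mem_primeFactors]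
    constructor
    · rintro ⟨hp, hd, _⟩
      obtain ⟨j, _, hj⟩ := (Prime.dvd_finsetProd_iff hp.prime _).1 hd
      exact ⟨j, mem_univ _, Nat.mem_primeFactors.2 ⟨hp, hj, h0 j⟩⟩
    · rintro ⟨j, _, hj⟩
      exact ⟨Nat.prime_of_mem_primeFactors hj,
        (Nat.dvd_of_mem_primeFactors hj).trans (dvd_prod_of_mem s (mem_univ j)),
        prod_ne_zero_iff.2 fun j _ => h0 j⟩
  rw [h1, prod_biUnion]
  · rfl
  · intro i _ j _ hij
    exact Nat.Coprime.disjoint_primeFactors (hc i j hij)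

set_option maxHeartbeats 1000000 in
theorem sv : Pool.Agent.W262.RK.SV := by
  classical
  intro J _ _ α β hα hαβ
  rcases Nat.eq_zero_or_pos (Fintype.card J) with hc0 | hc1
  · have := Fintype.card_eq_zero_iff.1 hc0
    refine ⟨0, fun z _ => ⟨1, 1, 0, le_rfl, fun X y _ _ _ s _ _ => ?_⟩⟩
    rw [hc0, pow_zero, div_one, one_mul]
    have h1 : ∏ j, gw 1 0 (s j) = 1 := by simp
    rw [h1, mul_one]
    have h2 := card_filter_le (Icc 1 X) (fun t : ℕ => ∀ j, Int.gcd (α j * t + β j) (PP z y) = s j)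
    rw [Nat.card_Icc] at h2
    have h3 : X + 1 - 1 = X := by omega
    rw [h3] at h2
    exact_mod_cast h2
  set c := Fintype.card J with hc
  obtain ⟨K', x0', hK', hF⟩ := Pool.Agent.H373R2.T7.sys_fund c hc1 1 one_pos
  refine ⟨∑ j, (α j).natAbs + ∑ j, ∑ l, (α j * β l - α l * β j).natAbs + 2 * c + 2, fun z hz => ?_⟩
  obtain ⟨C1, hC1, hP⟩ := prod_le c z (by omega)
  refine ⟨4 * C1 + 1, 2 * (K' + c), max x0' 3, by omega, fun X y hy hzy hyX s hs hsX => ?_⟩
  have hy0 : x0' ≤ y := (le_max_left _ _).trans hy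
  have hy3 : 3 ≤ y := (le_max_right _ _).trans hy
  obtain ⟨hs1, hs2⟩ := mem_Tup.1 hs
  have hs0 : ∀ j, s j ≠ 0 := fun j => ne_zero_of_dvd_ne_zero (PP_ne_zero z y) (hs1 j)
  have hpα : ∀ p ∈ PS z y, ∀ j, ¬ (p : ℤ) ∣ α j := by
    intro p hp j h
    have h1 := (mem_PS.1 hp).1.1
    have h2 : p ≤ (α j).natAbs := Nat.le_of_dvd (Int.natAbs_pos.2 (hα j)) (Int.natCast_dvd.1 h)
    have h3 : (α j).natAbs ≤ ∑ j, (α j).natAbs :=
      single_le_sum (f := fun j => (α j).natAbs) (fun _ _ => Nat.zero_le _) (mem_univ j)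
    omega
  have hpd : ∀ p ∈ PS z y, ∀ j l, j ≠ l → ¬ (p : ℤ) ∣ α j * β l - α l * β j := by
    intro p hp j l hjl h
    have h1 := (mem_PS.1 hp).1.1
    have h2 : p ≤ (α j * β l - α l * β j).natAbs :=
      Nat.le_of_dvd (Int.natAbs_pos.2 (sub_ne_zero.2 (hαβ j l hjl))) (Int.natCast_dvd.1 h)
    have h3 : (α j * β l - α l * β j).natAbs ≤ ∑ l, (α j * β l - α l * β j).natAbs :=
      single_le_sum (f := fun l => (α j * β l - α l * β j).natAbs) (fun _ _ => Nat.zero_le _) (mem_univ l)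
    have h4 : ∑ l, (α j * β l - α l * β j).natAbs ≤ ∑ j, ∑ l, (α j * β l - α l * β j).natAbs :=
      single_le_sum (f := fun j => ∑ l, (α j * β l - α l * β j).natAbs) (fun _ _ => Nat.zero_le _) (mem_univ j)
    omega
  obtain ⟨r, hr⟩ := count_le α β z y X s hs hpα
  set m := ∏ j, s j with hm
  have hm0 : m ≠ 0 := prod_ne_zero_iff.2 fun j _ => hs0 j
  have hmpos : 0 < m := Nat.pos_of_ne_zero hm0
  have hmdvd : m ∣ PP z y := by
    rw [hm]
    apply Finset.prod_dvd_of_isRelPrime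
    · intro i _ j _ hij
      exact Nat.coprime_iff_isRelPrime.1 (hs2 i j hij)
    · intro j _
      exact hs1 j
  have hmsq : Squarefree m := (PP_squarefree z y).squarefree_of_dvd hmdvd
  have hmPS : ∀ p ∈ m.primeFactors, p ∈ PS z y := by
    intro p hp
    exact prime_dvd_PP (Nat.prime_of_mem_primeFactors hp) ((Nat.dvd_of_mem_primeFactors hp).trans hmdvd)
  have hnu : ∀ p ∈ PS z y, ¬ p ∣ m → Pool.Agent.H373R2.T7.nuB (QQ α β z y r m) p = c := by
    intro p hp hpm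
    apply nu_eq α β p (mem_PS.1 hp).2 r (m : ℤ) (fun h => hpm (Int.natCast_dvd_natCast.1 h))
      (hpα p hp) (hpd p hp)
    intro n
    unfold QQ
    exact ⟨fun h => h.2.2, fun h => ⟨hp, hpm, h⟩⟩
  have hnu0 : ∀ p, ¬ (p ∈ PS z y ∧ ¬ p ∣ m) → Pool.Agent.H373R2.T7.nuB (QQ α β z y r m) p = 0 := by
    intro p hp
    unfold Pool.Agent.H373R2.T7.nuB
    rw [card_eq_zero, filter_eq_empty_iff]
    intro n _ hn
    exact hp ⟨hn.1, hn.2.1⟩
  have hPer : Pool.Agent.H373R2.T7.PerB (QQ α β z y r m) c := by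
    refine ⟨fun p n => QQ_per α β z y r m p n, fun p _ => ?_⟩
    by_cases h : p ∈ PS z y ∧ ¬ p ∣ m
    · exact (hnu p h.1 h.2).le
    · rw [hnu0 p h]
      exact Nat.zero_le _
  have hfund := hF (y ^ K') y hy0 le_rfl (QQ α β z y r m) hPer (X / m + 1)
  have hprod : ∏ p ∈ Pool.Agent.H373R2.T7.pz y,
      (1 - ((Pool.Agent.H373R2.T7.nuB (QQ α β z y r m) p : ℕ) : ℝ) / p) =
      ∏ p ∈ (PS z y).filter (fun p => ¬ p ∣ m), (1 - (c : ℝ) / p) := by
    have h1 : ∏ p ∈ (PS z y).filter (fun p => ¬ p ∣ m),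
        (1 - ((Pool.Agent.H373R2.T7.nuB (QQ α β z y r m) p : ℕ) : ℝ) / p) =
        ∏ p ∈ Pool.Agent.H373R2.T7.pz y,
      (1 - ((Pool.Agent.H373R2.T7.nuB (QQ α β z y r m) p : ℕ) : ℝ) / p) := by
      apply prod_subset
      · intro p hp
        rw [mem_filter, mem_PS] at hp
        exact Pool.Agent.H373R2.T7.mem_pz.2 ⟨hp.1.1.2, hp.1.2⟩
      · intro p _ hp
        rw [mem_filter] at hp
        rw [hnu0 p hp]
        simp
    rw [← h1]
    refine prod_congr rfl fun p hp => ?_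
    rw [mem_filter] at hp
    rw [hnu p hp.1 hp.2]
  rw [hprod] at hfund
  set A : ℝ := ∏ p ∈ (PS z y).filter (fun p => ¬ p ∣ m), (1 - (c : ℝ) / p) with hA
  set B : ℝ := ∏ p ∈ m.primeFactors, (1 - (c : ℝ) / p) with hB
  have hzc : ∀ p ∈ PS z y, (c : ℝ) + 1 ≤ p := by
    intro p hp
    have h1 := (mem_PS.1 hp).1.1
    exact_mod_cast (by omega : c + 1 ≤ p)
  have hfpos : ∀ p ∈ PS z y, 0 < 1 - (c : ℝ) / p := by
    intro p hp
    have h1 := hzc p hp
    have hp0 : (0 : ℝ) < p := by exact_mod_cast (mem_PS.1 hp).2.pos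
    rw [sub_pos, div_lt_one hp0]
    linarith
  have hApos : 0 < A := prod_pos fun p hp => hfpos p (mem_filter.1 hp).1
  have hBpos : 0 < B := prod_pos fun p hp => hfpos p (hmPS p hp)
  have hAB : A * B = ∏ p ∈ PS z y, (1 - (c : ℝ) / p) := by
    have h1 : m.primeFactors = (PS z y).filter (fun p => ¬ ¬ p ∣ m) := by
      ext p
      rw [mem_filter, not_not]
      constructor
      · intro hp
        exact ⟨hmPS p hp, Nat.dvd_of_mem_primeFactors hp⟩
      · rintro ⟨h2, h3⟩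
        exact Nat.mem_primeFactors.2 ⟨(mem_PS.1 h2).2, h3, hm0⟩
    rw [hA, hB, h1]
    exact prod_filter_mul_prod_filter_not _ _ _
  set G : ℝ := ∏ j, gw 1 c (s j) with hG
  have hG' : G = ∏ p ∈ m.primeFactors, (1 : ℝ) / ((p : ℝ) - c) := gw_prod c s hs0 hs2
  have hGpos : 0 < G := by
    rw [hG']
    refine prod_pos fun p hp => ?_
    have := hzc p (hmPS p hp)
    apply div_pos one_pos
    linarith
  have hmr : (m : ℝ) = ∏ p ∈ m.primeFactors, (p : ℝ) := by
    have := Nat.prod_primeFactors_of_squarefree hmsq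
    conv_lhs => rw [← this]
    push_cast
    rfl
  have hGmB : G * m * B = 1 := by
    rw [hG', hmr, hB, ← prod_mul_distrib, ← prod_mul_distrib]
    apply prod_eq_one
    intro p hp
    have h1 := hzc p (hmPS p hp)
    have hp0 : (0 : ℝ) < p := by exact_mod_cast (Nat.prime_of_mem_primeFactors hp).pos
    have h2 : (p : ℝ) - c ≠ 0 := by
      have : 0 < (p : ℝ) - c := by linarith
      exact this.ne'
    field_simp
  have hGm : 1 ≤ G * m := by
    have hB1 : B ≤ 1 := prod_le_one (fun p hp => (hfpos p (hmPS p hp)).le) (fun p hp => by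
      have : (0 : ℝ) ≤ (c : ℝ) / p := by positivity
      linarith)
    have h1 : 0 ≤ G * m := by positivity
    nlinarith
  have hAle : A ≤ (C1 / (Real.log y) ^ c) * (G * m) := by
    have h1 : A = (A * B) * (G * m) := by
      calc A = A * (G * m * B) := by rw [hGmB, mul_one]
        _ = _ := by ring
    rw [h1, hAB]
    exact mul_le_mul_of_nonneg_right (hP y hy3 hzy) (by positivity)
  have hyr : (3 : ℝ) ≤ y := by exact_mod_cast hy3
  have hl1 : 1 < Real.log y := by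
    rw [Real.lt_log_iff_exp_lt (by linarith)]
    have := Real.exp_one_lt_d9
    linarith
  have hly : Real.log y ≤ y := by
    have := Real.log_le_sub_one_of_pos (by linarith : (0 : ℝ) < y)
    linarith
  have hLpos : 0 < (Real.log y) ^ c := by positivity
  have hmX : m * y ^ (K' + c) ≤ X := by
    have h1 : (m * y ^ (K' + c)) ^ 4 ≤ X ^ 4 := by
      calc (m * y ^ (K' + c)) ^ 4 = m ^ 4 * (y ^ (K' + c)) ^ 4 := by rw [mul_pow]
        _ ≤ m ^ 4 * (y ^ (K' + c)) ^ 6 := by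
          apply Nat.mul_le_mul_left
          exact Nat.pow_le_pow_right (pow_pos (by omega) _) (by norm_num)
        _ = m ^ 4 * (y ^ (2 * (K' + c))) ^ 3 := by ring
        _ ≤ X * X ^ 3 := Nat.mul_le_mul hsX (Nat.pow_le_pow_left hyX 3)
        _ = X ^ 4 := by ring
    exact (Nat.pow_le_pow_iff_left (by norm_num)).1 h1
  have hmX' : m ≤ X := by
    refine le_trans ?_ hmX
    exact Nat.le_mul_of_pos_right _ (pow_pos (by omega) _)
  have hcnt : (((Icc 1 X).filter (fun t : ℕ => ∀ j, Int.gcd (α j * t + β j) (PP z y) = s j)).card : ℝ) ≤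
      2 * (((X / m + 1 : ℕ) : ℝ) * A) + √((y ^ K' : ℕ) : ℝ) := by
    have h1 : (((Icc 1 X).filter (fun t : ℕ => ∀ j, Int.gcd (α j * t + β j) (PP z y) = s j)).card : ℝ) ≤
      (((Icc 1 (X / m + 1)).filter
        (fun n : ℕ => ∀ p ∈ Pool.Agent.H373R2.T7.pz y, ¬ QQ α β z y r m p n)).card : ℝ) := by
      exact_mod_cast hr
    have h2 := (abs_le.1 hfund).2
    rw [one_mul] at h2
    linarith
  refine hcnt.trans ?_
  have hX' : ((X / m + 1 : ℕ) : ℝ) * m ≤ 2 * X := by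
    have h1 : (X / m + 1) * m ≤ 2 * X := by
      have := Nat.div_mul_le_self X m
      rw [add_mul, one_mul]
      omega
    exact_mod_cast h1
  have hsq : √((y ^ K' : ℕ) : ℝ) ≤ X * G / (Real.log y) ^ c := by
    have h1 : (1 : ℝ) ≤ ((y ^ K' : ℕ) : ℝ) := by
      exact_mod_cast Nat.one_le_iff_ne_zero.2 (pow_ne_zero _ (by omega))
    have h2 : √((y ^ K' : ℕ) : ℝ) ≤ ((y ^ K' : ℕ) : ℝ) := by
      rw [Real.sqrt_le_left (by linarith)]
      nlinarith
    refine h2.trans ?_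
    rw [le_div_iff₀ hLpos]
    have h3 : (Real.log y) ^ c ≤ (y : ℝ) ^ c := pow_le_pow_left₀ (by linarith) hly _
    have h4 : (m : ℝ) * (y : ℝ) ^ (K' + c) ≤ X := by exact_mod_cast hmX
    push_cast
    calc (y : ℝ) ^ K' * (Real.log y) ^ c ≤ (y : ℝ) ^ K' * (y : ℝ) ^ c :=
          mul_le_mul_of_nonneg_left h3 (by positivity)
      _ = (y : ℝ) ^ (K' + c) := by rw [pow_add]
      _ = 1 * (y : ℝ) ^ (K' + c) := (one_mul _).symm
      _ ≤ (G * m) * (y : ℝ) ^ (K' + c) := mul_le_mul_of_nonneg_right hGm (by positivity)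
      _ = G * (m * (y : ℝ) ^ (K' + c)) := by ring
      _ ≤ G * X := mul_le_mul_of_nonneg_left h4 hGpos.le
      _ = X * G := mul_comm _ _
  have hmain : 2 * (((X / m + 1 : ℕ) : ℝ) * A) ≤ 4 * C1 * X * G / (Real.log y) ^ c := by
    have h0 : (0 : ℝ) ≤ ((X / m + 1 : ℕ) : ℝ) := Nat.cast_nonneg _
    calc 2 * (((X / m + 1 : ℕ) : ℝ) * A) ≤
        2 * (((X / m + 1 : ℕ) : ℝ) * ((C1 / (Real.log y) ^ c) * (G * m))) := by
          have := mul_le_mul_of_nonneg_left hAle h0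
          linarith
      _ = (((X / m + 1 : ℕ) : ℝ) * m) * (2 * C1 * G / (Real.log y) ^ c) := by ring
      _ ≤ (2 * X) * (2 * C1 * G / (Real.log y) ^ c) := by
          apply mul_le_mul_of_nonneg_right hX'
          positivity
      _ = _ := by ring
  calc 2 * (((X / m + 1 : ℕ) : ℝ) * A) + √((y ^ K' : ℕ) : ℝ) ≤
      4 * C1 * X * G / (Real.log y) ^ c + X * G / (Real.log y) ^ c := add_le_add hmain hsq
    _ = (4 * C1 + 1) * X * G / (Real.log y) ^ c := by ring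

end Pool.Agent.W21.RK
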